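import Mathlib

set_option autoImplicit false

namespace Pool.Agent.H.MP_b94b02_co

open Polynomial Finset

noncomputable def B : ℕ → ℝ[X]
  | 0 => 1
  | m + 1 => derivative ((1 - X ^ 2) * B m)

lemma B_deg (m : ℕ) : (B m).natDegree ≤ m := by
  induction m with
  | zero => simp [B]
  | succ m ih =>
    have h1 : ((1 - X ^ 2 : ℝ[X]) * B m).natDegree ≤ 2 + m :=
      natDegree_mul_le_of_le (by compute_degree) ih
    have := natDegree_derivative_le ((1 - X ^ 2 : ℝ[X]) * B m)
    rw [B]; omega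

lemma B_neg_one (m : ℕ) : (B m).eval (-1) = 2 ^ m := by
  induction m with
  | zero => simp [B]
  | succ m ih => simp [B, derivative_mul, ih]; ring

lemma B_comp (m : ℕ) : (B m).comp (-X) = C ((-1) ^ m) * B m := by
  induction m with
  | zero => simp [B]
  | succ m ih =>
    have h : ((1 - X ^ 2 : ℝ[X]) * B m).comp (-X) = C ((-1) ^ m) * ((1 - X ^ 2) * B m) := by
      rw [mul_comp, ih]; simp; ring
    have h2 := congrArg derivative h
    rw [derivative_comp, derivative_C_mul] at h2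
    rw [B, pow_succ (-1 : ℝ) m, C_mul]
    simp only [derivative_neg, derivative_X, C_neg, C_1] at h2 ⊢
    linear_combination -h2

lemma B_neg (m : ℕ) (y : ℝ) : (B m).eval (-y) = (-1) ^ m * (B m).eval y := by
  have := congrArg (eval y) (B_comp m)
  simpa [eval_comp] using this

def d : ℕ → ℕ → ℕ
  | 0, k => if k = 0 then 1 else 0
  | m + 1, 0 => d m 1
  | m + 1, k + 1 => (k + 2) * (d m (k + 2) + d m k)

lemma coeff_B (m k : ℕ) : (B m).coeff k = (-1) ^ ((m + k) / 2) * d m k := by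
  induction m generalizing k with
  | zero =>
    rcases k with _ | k
    · simp [B, d]
    · simp [B, d, coeff_one]
  | succ m ih =>
    rw [B, coeff_derivative, sub_mul, one_mul, coeff_sub, coeff_X_pow_mul']
    rcases k with _ | k
    · simp [ih, d]
    · rw [if_pos (by omega), ih, ih, show k + 1 + 1 - 2 = k by omega, d,
        show (m + (k + 1 + 1)) / 2 = (m + k) / 2 + 1 by omega,
        show (m + 1 + (k + 1)) / 2 = (m + k) / 2 + 1 by omega]
      push_cast
      ring

lemma d_big (s : ℕ) : 2 ^ (2 * (s + 3) + 2) ≤ d (2 * (s + 3)) 0 := by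
  induction s with
  | zero => decide
  | succ s ih =>
    have h1 : d (2 * (s + 1 + 3)) 0 = 2 * (d (2 * (s + 3)) 2 + d (2 * (s + 3)) 0) := by
      rw [show 2 * (s + 1 + 3) = 2 * (s + 3) + 1 + 1 by ring, d, d]
    have h2 : d (2 * (s + 3)) 0 ≤ d (2 * (s + 3)) 2 := by
      show d (2 * s + 5) 1 ≤ (1 + 2) * (d (2 * s + 5) (1 + 2) + d (2 * s + 5) 1)
      omega
    rw [h1, show 2 * (s + 1 + 3) + 2 = (2 * (s + 3) + 2) + 2 by ring, pow_add]
    omega

lemma B_zero (s : ℕ) : (2 : ℝ) ^ (2 * (s + 3) + 2) ≤ (-1) ^ (s + 3) * (B (2 * (s + 3))).eval 0 := by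
  rw [← coeff_zero_eq_eval_zero, coeff_B, show (2 * (s + 3) + 0) / 2 = s + 3 by omega,
    ← mul_assoc, ← mul_pow]
  simp only [mul_neg, mul_one, neg_neg, one_pow, one_mul]
  exact_mod_cast d_big s

def Inv (m s : ℕ) (η : ℕ → ℝ) : Prop :=
  η 0 = -1 ∧ (∀ i < s, η i < η (i + 1)) ∧
    ∀ i ≤ s, (2 : ℝ) ^ (m + 2) ≤ (-1) ^ i * (B m).eval (η i) * (1 - η i) ^ 2

lemma mono {s : ℕ} {η : ℕ → ℝ} (h : ∀ i < s, η i < η (i + 1)) {i j : ℕ} (hij : i ≤ j)
    (hj : j ≤ s) : η i ≤ η j := by
  induction j, hij using Nat.le_induction with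
  | base => exact le_rfl
  | succ j _ ih => exact (ih (by omega)).trans (h j (by omega)).le

lemma mvt (m : ℕ) (σ a b : ℝ) (ha : -1 ≤ a) (hab : a < b) (hb : b ≤ 0)
    (h1 : (2 : ℝ) ^ (m + 2) ≤ -σ * (B m).eval a * (1 - a) ^ 2)
    (h2 : (2 : ℝ) ^ (m + 2) ≤ σ * (B m).eval b * (1 - b) ^ 2) :
    ∃ c, a < c ∧ c < b ∧ (2 : ℝ) ^ (m + 1 + 2) ≤ σ * (B (m + 1)).eval c * (1 - c) ^ 2 := by
  have hd : ∀ y : ℝ, y ≤ b → HasDerivAt
      (fun y : ℝ => σ * ((1 - X ^ 2) * B m).eval y - 2 ^ (m + 2) * ((1 + y) / (1 - y)))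
      (σ * (B (m + 1)).eval y - 2 ^ (m + 2) * (2 / (1 - y) ^ 2)) y := by
    intro y hy
    have e1 := (((1 - X ^ 2) * B m).hasDerivAt y).const_mul σ
    have e2 := (((hasDerivAt_id' y).const_add 1).fun_div ((hasDerivAt_id' y).const_sub 1)
      (by linarith)).const_mul ((2 : ℝ) ^ (m + 2))
    refine (e1.fun_sub e2).congr_deriv ?_
    simp only [B]
    ring
  obtain ⟨c, ⟨hc1, hc2⟩, hc⟩ := exists_hasDerivAt_eq_slope _ _ hab
    (fun y hy => (hd y hy.2).continuousAt.continuousWithinAt) (fun y hy => hd y hy.2.le)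
  refine ⟨c, hc1, hc2, ?_⟩
  have p2 : (0 : ℝ) < 2 ^ (m + 2) := by positivity
  have hb1 : 0 < 1 - b := by linarith
  have ha1 : 0 < 1 - a := by linarith
  have hc3 : 0 < 1 - c := by linarith
  have e1 : 0 ≤ σ * ((1 - X ^ 2) * B m).eval b - 2 ^ (m + 2) * ((1 + b) / (1 - b)) := by
    have : σ * ((1 - X ^ 2) * B m).eval b - 2 ^ (m + 2) * ((1 + b) / (1 - b)) =
        (σ * (B m).eval b * (1 - b) ^ 2 - 2 ^ (m + 2)) * ((1 + b) / (1 - b)) := by
      simp only [eval_mul, eval_sub, eval_one, eval_pow, eval_X]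
      field_simp
      ring
    rw [this]
    exact mul_nonneg (by linarith) (div_nonneg (by linarith) hb1.le)
  have e2 : σ * ((1 - X ^ 2) * B m).eval a - 2 ^ (m + 2) * ((1 + a) / (1 - a)) ≤ 0 := by
    have : σ * ((1 - X ^ 2) * B m).eval a - 2 ^ (m + 2) * ((1 + a) / (1 - a)) =
        -((-σ * (B m).eval a * (1 - a) ^ 2 + 2 ^ (m + 2)) * ((1 + a) / (1 - a))) := by
      simp only [eval_mul, eval_sub, eval_one, eval_pow, eval_X]
      field_simp
      ring
    rw [this, neg_nonpos]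
    exact mul_nonneg (by linarith) (div_nonneg (by linarith) ha1.le)
  have e3 : 0 ≤ σ * (B (m + 1)).eval c - 2 ^ (m + 2) * (2 / (1 - c) ^ 2) := by
    rw [hc]; exact div_nonneg (by linarith) (by linarith)
  have e4 := mul_nonneg e3 (sq_nonneg (1 - c))
  have e5 : (σ * (B (m + 1)).eval c - 2 ^ (m + 2) * (2 / (1 - c) ^ 2)) * (1 - c) ^ 2 =
      σ * (B (m + 1)).eval c * (1 - c) ^ 2 - 2 ^ (m + 1 + 2) := by
    field_simp
    ring
  linarith

lemma step {m s : ℕ} {η : ℕ → ℝ} (h : Inv m s η) (hs : η s ≤ 0) :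
    ∃ ξ, Inv (m + 1) s ξ ∧ ξ s < 0 := by
  obtain ⟨h0, h1, h2⟩ := h
  have key : ∀ i, ∃ c, i < s → η i < c ∧ c < η (i + 1) ∧
      (2 : ℝ) ^ (m + 1 + 2) ≤ (-1) ^ (i + 1) * (B (m + 1)).eval c * (1 - c) ^ 2 := by
    intro i
    by_cases hi : i < s
    · obtain ⟨c, hc⟩ := mvt m ((-1) ^ (i + 1)) (η i) (η (i + 1))
        (h0 ▸ mono h1 (Nat.zero_le i) hi.le) (h1 i hi) ((mono h1 hi le_rfl).trans hs)
        (by have := h2 i hi.le; rw [pow_succ (-1 : ℝ) i]; linarith) (h2 (i + 1) hi)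
      exact ⟨c, fun _ => hc⟩
    · exact ⟨0, fun h => absurd h hi⟩
  choose c hc using key
  refine ⟨fun i => Nat.casesOn i (-1) c, ⟨rfl, ?_, ?_⟩, ?_⟩
  · intro i hi
    rcases i with _ | i
    · exact h0 ▸ (hc 0 hi).1
    · exact (hc i (by omega)).2.1.trans (hc (i + 1) hi).1
  · intro i hi
    rcases i with _ | i
    · show _ ≤ (-1) ^ 0 * (B (m + 1)).eval (-1) * (1 - (-1)) ^ 2
      rw [B_neg_one]; apply le_of_eq; ring
    · exact (hc i hi).2.2
  · rcases s with _ | s
    · norm_num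
    · exact (hc s (by omega)).2.1.trans_le hs

lemma B6 : B 6 = -C 272 + C 3696 * X ^ 2 - C 8400 * X ^ 4 + C 5040 * X ^ 6 := by
  simp only [B, derivative_mul, derivative_sub, derivative_one, derivative_X_pow, map_ofNat,
    derivative_add, derivative_X, derivative_zero, Nat.cast_ofNat,
    derivative_ofNat, Nat.add_one_sub_one, pow_one]
  ring

lemma even (s : ℕ) : ∃ η, Inv (2 * (s + 3)) (s + 3) η ∧ η (s + 3) = 0 := by
  induction s with
  | zero =>
    refine ⟨fun i => if i = 0 then -1 else if i = 1 then -0.88 else if i = 2 then -0.5 else 0,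
      ⟨rfl, ?_, ?_⟩, rfl⟩
    · intro i hi
      interval_cases i <;> norm_num
    · intro i hi
      rw [show 2 * (0 + 3) = 6 from rfl, B6]
      interval_cases i <;> norm_num
  | succ s ih =>
    obtain ⟨η, h, hs⟩ := ih
    obtain ⟨η1, h1, hs1⟩ := step h hs.le
    obtain ⟨ξ, ⟨a0, a1, a2⟩, hs2⟩ := step h1 hs1.le
    refine ⟨fun i => if i ≤ s + 3 then ξ i else 0, ⟨by simpa using a0, ?_, ?_⟩, by simp⟩
    · intro i hi
      by_cases h : i < s + 3
      · simp only [if_pos h.le, if_pos (show i + 1 ≤ s + 3 from h)]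
        exact a1 i h
      · obtain rfl : i = s + 3 := by omega
        simpa using hs2
    · intro i hi
      by_cases h : i ≤ s + 3
      · simp only [if_pos h]
        exact a2 i h
      · obtain rfl : i = s + 1 + 3 := by omega
        simpa using B_zero (s + 1)

def Alt (m : ℕ) : Prop := ∃ η : ℕ → ℝ, η 0 = -1 ∧ (∀ i < m / 2, η i < η (i + 1)) ∧
  (∀ i, 0 < i → i ≤ m / 2 → (2 : ℝ) ^ m < (-1) ^ i * (B m).eval (η i)) ∧
  (if m % 2 = 0 then η (m / 2) = 0 else η (m / 2) < 0)

lemma alt_of {m : ℕ} {η : ℕ → ℝ} (h : Inv m (m / 2) η)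
    (hs : if m % 2 = 0 then η (m / 2) = 0 else η (m / 2) < 0) : Alt m := by
  obtain ⟨h0, h1, h2⟩ := h
  refine ⟨η, h0, h1, fun i hi0 hi => ?_, hs⟩
  have a1 : η i ≤ 0 := (mono h1 hi le_rfl).trans (by split_ifs at hs <;> linarith)
  have a2 : -1 < η i := h0 ▸ (h1 0 (by omega)).trans_le (mono h1 hi0 hi)
  have a3 := h2 i hi
  have p2 : (0 : ℝ) < 2 ^ m := by positivity
  rw [pow_add] at a3
  by_contra hc
  push Not at hc
  have a4 : (1 - η i) ^ 2 < 4 := by nlinarith
  have a5 := mul_le_mul_of_nonneg_right hc (sq_nonneg (1 - η i))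
  nlinarith

lemma B5 : B 5 = -C 272 * X + C 960 * X ^ 3 - C 720 * X ^ 5 := by
  simp only [B, derivative_mul, derivative_sub, derivative_one, derivative_X_pow, map_ofNat,
    derivative_add, derivative_X, derivative_zero, Nat.cast_ofNat,
    derivative_ofNat, Nat.add_one_sub_one, pow_one]
  ring

lemma alt (m : ℕ) (hm : 5 ≤ m) : Alt m := by
  rcases Nat.eq_or_lt_of_le hm with rfl | h
  · refine ⟨fun i => if i = 0 then -1 else if i = 1 then -0.8 else -0.3, rfl, ?_, ?_, ?_⟩
    · intro i hi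
      have : i < 2 := hi
      interval_cases i <;> norm_num
    · intro i h0 hi
      have : i ≤ 2 := hi
      rw [B5]
      interval_cases i <;> norm_num
    · norm_num
  obtain ⟨s, hs | hs⟩ : ∃ s, m = 2 * (s + 3) ∨ m = 2 * (s + 3) + 1 := ⟨(m - 6) / 2, by omega⟩
  · obtain ⟨η, h1, h2⟩ := even s
    have e : m / 2 = s + 3 := by omega
    exact alt_of (η := η) (by rw [e, hs]; exact h1) (by rw [if_pos (by omega), e, h2])
  · obtain ⟨η, h1, h2⟩ := even s
    obtain ⟨ξ, h3, h4⟩ := step h1 h2.le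
    have e : m / 2 = s + 3 := by omega
    exact alt_of (η := ξ) (by rw [e, hs]; exact h3) (by rw [if_neg (by omega), e]; exact h4)

lemma real_of (P : ℝ[X]) (m : ℕ) (hm : 2 ≤ m) (hd : P.natDegree ≤ m) (ζ : ℕ → ℝ)
    (h1 : ∀ i < m, ζ i < ζ (i + 1)) (h2 : ∀ i ≤ m, 0 ≤ (-1) ^ i * P.eval (ζ i))
    (h3 : ∀ i, 0 < i → i < m → P.eval (ζ i) ≠ 0) (z : ℂ) (hz : aeval z P = 0) : z.im = 0 := by
  classical
  have key : ∀ i, ∃ r, i < m → ζ i ≤ r ∧ r ≤ ζ (i + 1) ∧ P.eval r = 0 := by
    intro i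
    by_cases hi : i < m
    · have hc : ContinuousOn (fun y => (-1) ^ i * P.eval y) (Set.Icc (ζ i) (ζ (i + 1))) := by
        fun_prop
      have := h2 (i + 1) hi
      obtain ⟨r, hr, hr0⟩ := intermediate_value_Icc' (h1 i hi).le hc
        (show (0 : ℝ) ∈ _ from ⟨by rw [pow_succ] at this; linarith, h2 i hi.le⟩)
      exact ⟨r, fun _ => ⟨hr.1, hr.2, (mul_eq_zero.1 hr0).resolve_left (by simp)⟩⟩
    · exact ⟨0, fun h => absurd h hi⟩
  choose r hr using key
  have hlt : ∀ i j, i < j → j < m → r i < r j := by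
    intro i j hij hj
    have a1 := (hr i (by omega)).2.1
    have a2 := mono h1 (show i + 1 ≤ j from hij) hj.le
    have a3 := (hr j hj).1
    refine lt_of_le_of_lt (a1.trans a2) (lt_of_le_of_ne a3 fun e => ?_)
    exact h3 j (by omega) hj (e ▸ (hr j hj).2.2)
  have hP : P ≠ 0 := fun h => h3 1 one_pos (by omega) (by simp [h])
  have hP' : P.map (algebraMap ℝ ℂ) ≠ 0 := map_ne_zero hP
  by_contra hne
  have hsub : insert z ((range m).image (fun i => (r i : ℂ))) ⊆
      (P.map (algebraMap ℝ ℂ)).roots.toFinset := by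
    intro w hw
    rw [Multiset.mem_toFinset, mem_roots hP', IsRoot, eval_map_algebraMap]
    rcases mem_insert.1 hw with rfl | hw
    · exact hz
    · obtain ⟨i, hi, rfl⟩ := mem_image.1 hw
      have := aeval_algebraMap_apply ℂ (r i) P
      simp only [Complex.coe_algebraMap, coe_aeval_eq_eval, (hr i (mem_range.1 hi)).2.2] at this
      simpa using this
  have c1 := card_le_card hsub
  rw [card_insert_of_notMem, card_image_of_injOn, card_range] at c1
  · have c2 := (Multiset.toFinset_card_le _).trans (card_roots' (P.map (algebraMap ℝ ℂ)))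
    rw [natDegree_map] at c2
    omega
  · intro i hi j hj hij
    have e : r i = r j := Complex.ofReal_injective hij
    rcases lt_trichotomy i j with h | h | h
    · exact absurd e (hlt i j h (by simpa using hj)).ne
    · exact h
    · exact absurd e (hlt j i h (by simpa using hi)).ne'
  · intro h
    obtain ⟨i, -, rfl⟩ := mem_image.1 h
    exact hne (by simp)

lemma B_real (m : ℕ) (hm : 5 ≤ m) (ε : ℝ) (hε : |ε| ≤ 1) (z : ℂ)
    (hz : aeval z (B m + C (ε * 2 ^ m)) = 0) : z.im = 0 := by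
  obtain ⟨η, h0, h1, h2, h3⟩ := alt m hm
  have p2 : (0 : ℝ) < 2 ^ m := by positivity
  have val : ∀ i ≤ m, (-1) ^ i * (B m).eval (if i ≤ m / 2 then η i else -η (m - i)) =
      (-1) ^ (min i (m - i)) * (B m).eval (η (min i (m - i))) := by
    intro i hi
    split_ifs with h
    · rw [min_eq_left (by omega)]
    · rw [min_eq_right (by omega), B_neg, ← mul_assoc, ← pow_add,
        show i + m = (m - i) + 2 * i by omega, pow_add, pow_mul]
      simp
  have small : ∀ i : ℕ, -(2 : ℝ) ^ m ≤ (-1) ^ i * (ε * 2 ^ m) := by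
    intro i
    have := abs_le.1 hε
    rcases neg_one_pow_eq_or ℝ i with h | h <;> rw [h] <;> nlinarith
  have pos : ∀ i, 0 < i → i < m → 0 < (-1) ^ i *
      (B m + C (ε * 2 ^ m)).eval (if i ≤ m / 2 then η i else -η (m - i)) := by
    intro i a b
    rw [eval_add, eval_C, mul_add, val i b.le]
    have := h2 (min i (m - i)) (by omega) (by omega)
    linarith [small i]
  refine real_of _ m (by omega) ?_ (fun i => if i ≤ m / 2 then η i else -η (m - i)) ?_ ?_ ?_ z hz
  · rw [natDegree_add_C]; exact B_deg m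
  · intro i hi
    by_cases a : i + 1 ≤ m / 2
    · simp only [if_pos a, if_pos (show i ≤ m / 2 by omega)]
      exact h1 i a
    · by_cases b : i ≤ m / 2
      · obtain rfl : i = m / 2 := by omega
        simp only [if_neg a, if_pos b]
        split_ifs at h3 with h
        · have := h1 (m / 2 - 1) (by omega)
          rw [show m / 2 - 1 + 1 = m / 2 by omega] at this
          rw [show m - (m / 2 + 1) = m / 2 - 1 by omega]
          linarith
        · rw [show m - (m / 2 + 1) = m / 2 by omega]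
          linarith
      · simp only [if_neg a, if_neg b]
        have := h1 (m - (i + 1)) (by omega)
        rw [show m - (i + 1) + 1 = m - i by omega] at this
        linarith
  · intro i hi
    by_cases a : 0 < i ∧ i < m
    · exact (pos i a.1 a.2).le
    · rw [eval_add, eval_C, mul_add, val i hi, show min i (m - i) = 0 by omega, h0, B_neg_one]
      linarith [small i]
  · intro i a b h
    have := pos i a b
    simp only [h] at this
    simp at this

end Pool.Agent.H.MP_b94b02_co
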