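import Pool.Agent.H.MP_b94b02_co.A

set_option autoImplicit false

namespace Pool.Agent.H.MP_b94b02_co

open Polynomial Finset Equiv

def ex {n : ℕ} (σ : Perm (Fin n)) : ℕ := (univ.filter (fun i => i < σ i)).card

lemma ex_le {m : ℕ} (σ : Perm (Fin (m + 1))) : ex σ ≤ m := by
  have : univ.filter (fun i => i < σ i) ⊆ univ.erase (Fin.last m) := by
    intro i hi
    refine mem_erase.2 ⟨?_, mem_univ _⟩
    rintro rfl
    exact absurd (mem_filter.1 hi).2 (not_lt.2 (Fin.le_last _))
  have := card_le_card this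
  simpa [ex] using this

lemma ex_zero {n : ℕ} (τ : Perm (Fin n)) : ex (Perm.decomposeFin.symm (0, τ)) = ex τ := by
  simp only [ex, card_filter, Fin.sum_univ_succ, Perm.decomposeFin_symm_apply_zero,
    Perm.decomposeFin_symm_apply_succ, lt_self_iff_false, if_false, swap_self, refl_apply,
    Fin.succ_lt_succ_iff, zero_add]

lemma ex_succ {n : ℕ} (τ : Perm (Fin n)) (i : Fin n) :
    ex (Perm.decomposeFin.symm ((τ i).succ, τ)) = if i < τ i then ex τ else ex τ + 1 := by
  have h1 : ∀ x, (if x.succ < swap 0 (τ i).succ (τ x).succ then 1 else 0) +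
      (if x = i then (if i < τ i then 1 else 0) else 0) = if x < τ x then 1 else 0 := by
    intro x
    by_cases hx : x = i
    · subst hx
      simp
    · rw [swap_apply_of_ne_of_ne (Fin.succ_ne_zero _) (by simpa using hx)]
      simp [hx]
  have h2 := sum_congr (s₁ := univ) rfl fun x _ => h1 x
  rw [sum_add_distrib, sum_ite_eq' univ i] at h2
  simp only [ex, card_filter, Fin.sum_univ_succ, Perm.decomposeFin_symm_apply_zero,
    Perm.decomposeFin_symm_apply_succ, Fin.succ_pos, if_true, mem_univ] at h2 ⊢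
  split_ifs at h2 ⊢ <;> omega

noncomputable def wt (ε : ℝ) (s : ℤˣ) : ℝ := if s = 1 then 1 else ε

lemma wt_neg (ε : ℝ) (hε : ε * ε = 1) (s : ℤˣ) : wt ε (-1 * s) = ε * wt ε s := by
  rcases Int.units_eq_one_or s with rfl | rfl <;> simp [wt, hε]

noncomputable def T (e m : ℕ) : ℝ[X] := (-X - 1) ^ e * (1 - X) ^ (m - e)

lemma T1 {e m : ℕ} (h : e ≤ m) : T e (m + 1) = (1 - X) * T e m := by
  rw [T, T, show m + 1 - e = m - e + 1 by omega]; ring

lemma T2 (e m : ℕ) : T (e + 1) (m + 1) = (-X - 1) * T e m := by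
  rw [T, T, show m + 1 - (e + 1) = m - e by omega]; ring

lemma T3 {e m : ℕ} (h : e ≤ m) : (1 - X ^ 2) * derivative (T e m) =
    (e : ℝ[X]) * ((1 - X) * T e m) + ((m : ℝ[X]) - (e : ℝ[X])) * ((-X - 1) * T e m) := by
  obtain ⟨k, rfl⟩ := Nat.exists_eq_add_of_le h
  rw [T, Nat.add_sub_cancel_left]
  rcases e with _ | e <;> rcases k with _ | k <;>
    simp [derivative_mul, derivative_pow_succ] <;> ring

noncomputable def W (ε : ℝ) (m : ℕ) : ℝ[X] :=
  ∑ σ : Perm (Fin (m + 1)), C (wt ε (Perm.sign σ)) * T (ex σ) m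

lemma term (ε : ℝ) (hε : ε * ε = 1) (m : ℕ) (τ : Perm (Fin (m + 1))) :
    ∑ p : Fin (m + 2), C (wt ε (Perm.sign (Perm.decomposeFin.symm (p, τ)))) *
      T (ex (Perm.decomposeFin.symm (p, τ))) (m + 1) =
    (1 - X) * (C (wt ε (Perm.sign τ)) * T (ex τ) m) +
      C ε * ((1 - X ^ 2) * derivative (C (wt ε (Perm.sign τ)) * T (ex τ) m) +
        (-X - 1) * (C (wt ε (Perm.sign τ)) * T (ex τ) m)) := by
  have he := ex_le τ
  have h0 : ∀ i : Fin (m + 1),
      C (wt ε (Perm.sign (Perm.decomposeFin.symm ((τ i).succ, τ)))) *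
        T (ex (Perm.decomposeFin.symm ((τ i).succ, τ))) (m + 1) =
      C (ε * wt ε (Perm.sign τ)) *
        (if i < τ i then (1 - X) * T (ex τ) m else (-X - 1) * T (ex τ) m) := by
    intro i
    rw [ex_succ, Perm.decomposeFin.symm_sign, if_neg (Fin.succ_ne_zero _), wt_neg ε hε]
    split_ifs
    · rw [T1 he]
    · rw [T2]
  rw [Fin.sum_univ_succ, ← Equiv.sum_comp τ, sum_congr rfl fun i _ => h0 i, ex_zero, T1 he,
    Perm.decomposeFin.symm_sign, if_pos rfl, one_mul, ← mul_sum, sum_ite, sum_const, sum_const]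
  have h1 : (univ.filter (fun i => ¬ i < τ i)).card + ex τ = m + 1 := by
    rw [add_comm, ex, card_filter_add_card_filter_not]; simp
  have h2 : ((univ.filter (fun i => ¬ i < τ i)).card : ℝ[X]) =
      (m : ℝ[X]) + 1 - (ex τ : ℝ[X]) := by
    rw [eq_sub_iff_add_eq]; exact_mod_cast congrArg (Nat.cast : ℕ → ℝ[X]) h1
  have h3 := T3 he
  rw [nsmul_eq_mul, nsmul_eq_mul, h2, derivative_C_mul, C_mul, ← ex]
  linear_combination (-C ε * C (wt ε (Perm.sign τ))) * h3

lemma W_succ (ε : ℝ) (hε : ε * ε = 1) (m : ℕ) :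
    W ε (m + 1) = (1 - X) * W ε m +
      C ε * ((1 - X ^ 2) * derivative (W ε m) + (-X - 1) * W ε m) := by
  rw [W, ← Perm.decomposeFin.symm.sum_comp, Fintype.sum_prod_type, sum_comm,
    sum_congr rfl fun τ _ => term ε hε m τ, W, derivative_sum]
  simp only [sum_add_distrib, ← mul_sum]

lemma W_zero (ε : ℝ) : W ε 0 = 1 := by
  rw [W, sum_eq_single 1 (fun σ _ h => absurd (Subsingleton.elim (α := Perm (Fin 1)) σ 1) h)
    (by simp), Nat.le_zero.1 (ex_le (1 : Perm (Fin (0 + 1))))]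
  simp [wt, T]

lemma W_one (m : ℕ) : W 1 m = B m := by
  induction m with
  | zero => rw [W_zero, B]
  | succ m ih =>
    rw [W_succ 1 (by norm_num), ih, B]
    simp [derivative_mul]
    ring

lemma W_neg (m : ℕ) : W (-1) m = C (2 ^ m) := by
  induction m with
  | zero => simp [W_zero]
  | succ m ih =>
    rw [W_succ (-1) (by norm_num), ih, derivative_C, pow_succ (2 : ℝ), C_mul]
    simp [map_ofNat]
    ring

lemma part (m : ℕ) (s : ℤˣ) :
    C 2 * ∑ σ ∈ (univ : Finset (Perm (Fin (m + 1)))).filter (fun σ => Perm.sign σ = s),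
      T (ex σ) m = B m + C (((s : ℤ) : ℝ) * 2 ^ m) := by
  rw [C_mul, ← W_neg, ← W_one, W, W, sum_filter, mul_sum, mul_sum, ← sum_add_distrib]
  refine sum_congr rfl fun σ _ => ?_
  rcases Int.units_eq_one_or s with rfl | rfl <;>
    rcases Int.units_eq_one_or (Perm.sign σ) with h | h <;> simp [h, wt, map_ofNat] <;> ring

lemma main (m : ℕ) (hm : 5 ≤ m) (s : ℤˣ) (z : ℂ)
    (hz : ∑ σ ∈ (univ : Finset (Perm (Fin (m + 1)))).filter (fun σ => Perm.sign σ = s),
      z ^ ex σ = 0) : z.im = 0 := by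
  by_contra hne
  have h1 : z - 1 ≠ 0 := by
    intro h
    rw [sub_eq_zero] at h
    exact hne (by simp [h])
  have h2 := B_real m hm ((s : ℤ) : ℝ) (by
    rcases Int.units_eq_one_or s with rfl | rfl <;> simp) ((z + 1) / (z - 1)) (by
    rw [← part, map_mul, map_sum]
    have : ∀ σ : Perm (Fin (m + 1)), aeval ((z + 1) / (z - 1)) (T (ex σ) m) =
        (-2 / (z - 1)) ^ m * z ^ ex σ := by
      intro σ
      obtain ⟨k, hk⟩ := Nat.exists_eq_add_of_le (ex_le σ)
      have a1 : -((z + 1) / (z - 1)) - 1 = -2 / (z - 1) * z := by field_simp; ring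
      have a2 : 1 - (z + 1) / (z - 1) = -2 / (z - 1) := by field_simp; ring
      simp only [T, map_mul, map_pow, map_sub, map_neg, aeval_X, map_one, a1, a2]
      generalize ex σ = e at hk
      rw [show m - e = k by omega, mul_pow, hk, pow_add]
      ring
    simp only [this, ← mul_sum, hz, mul_zero])
  have h3 : (z + 1) / (z - 1) * (z - 1) = z + 1 := div_mul_cancel₀ _ h1
  have a1 := congrArg Complex.im h3
  have a2 := congrArg Complex.re h3
  simp only [Complex.mul_im, Complex.mul_re, h2, Complex.sub_im, Complex.add_im, Complex.one_im,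
    Complex.sub_re, Complex.add_re, Complex.one_re] at a1 a2
  have a3 : ((z + 1) / (z - 1)).re = 1 := by
    apply mul_right_cancel₀ hne
    linarith
  rw [a3] at a2
  linarith

end Pool.Agent.H.MP_b94b02_co
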